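import Pool.Agent.N300.UN.Stubs
import Pool.Agent.H923R2.FP.Stubs
import Pool.Agent.H672R2.FP.SDF
import Pool.Agent.H797R2.FP_N1
import Pool.Agent.H797R2.FP_N2

/-!
# The Fock model of an algebra generated by `S` and a free semicircular element
-/

set_option autoImplicit false

open scoped ComplexConjugate ComplexOrder

noncomputable section

namespace Pool.Agent.N833.UN

open Pool.Agent.H923R2.FP Pool.Agent.H923R2.FZ Pool.Agent.N300.UN

/-! ### the graph of the annihilation operator (after `H598R3/FP_N3.lean`) -/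

section basic

variable {A Q R : Type} [CStarAlgebra A]

/-- linear extension of a map on words -/
def fx (f : List (Lt Q R) → A) (e : Ex Q R) : A := (e.map fun p => p.1 • f p.2).sum

theorem fx_nil (f : List (Lt Q R) → A) : fx f [] = 0 := rfl

theorem fx_cons (f : List (Lt Q R) → A) (p : ℂ × List (Lt Q R)) (e : Ex Q R) :
    fx f (p :: e) = p.1 • f p.2 + fx f e := by simp [fx]

theorem fx_append (f : List (Lt Q R) → A) (e e' : Ex Q R) :
    fx f (e ++ e') = fx f e + fx f e' := by simp [fx]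

theorem fx_smx (f : List (Lt Q R) → A) (c : ℂ) (e : Ex Q R) :
    fx f (smx c e) = c • fx f e := by
  induction e with
  | nil => simp [smx, fx]
  | cons p e ih =>
    have : smx c (p :: e) = (c * p.1, p.2) :: smx c e := rfl
    rw [this, fx_cons, fx_cons, ih, smul_add, smul_smul]

theorem fx_sub (s : A) (f g : List (Lt Q R) → A) (e : Ex Q R) :
    fx (fun w => s * f w - g w) e = s * fx f e - fx g e := by
  induction e with
  | nil => simp [fx_nil]
  | cons p e ih =>
    rw [fx_cons, fx_cons, fx_cons, ih, mul_add, mul_smul_comm, smul_sub]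
    abel

/-- a functional of a product of two extensions -/
theorem sesq (τ : A →ₗ[ℂ] ℂ) (f g : List (Lt Q R) → A) (c : A) (v w : Ex Q R) :
    τ (star (fx f v) * c * fx g w) = (v.map fun p => (w.map fun q =>
      conj p.1 * q.1 * τ (star (f p.2) * c * g q.2)).sum).sum := by
  have h1 : ∀ (a : List (Lt Q R)) (w : Ex Q R), τ (star (f a) * c * fx g w) =
      (w.map fun q => q.1 * τ (star (f a) * c * g q.2)).sum := by
    intro a w
    induction w with
    | nil => simp [fx_nil]
    | cons q w ih =>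
      rw [fx_cons, mul_add, map_add, ih, mul_smul_comm, map_smul, List.map_cons, List.sum_cons,
        smul_eq_mul]
  induction v with
  | nil => simp [fx_nil]
  | cons p v ih =>
    rw [fx_cons, star_add, add_mul, add_mul, map_add, ih, List.map_cons, List.sum_cons, star_smul,
      smul_mul_assoc, smul_mul_assoc, map_smul, h1, smul_eq_mul]
    congr 1
    rw [← List.sum_map_mul_left]
    congr 1
    apply List.map_congr_left
    intro q _
    rw [mul_assoc ((starRingEnd ℂ) p.1) q.1]
    rfl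

theorem sesq_congr (τ : A →ₗ[ℂ] ℂ) (f₁ f₂ g₁ g₂ : List (Lt Q R) → A) (c₁ c₂ : A) (κ : ℂ)
    (h : ∀ v w, τ (star (f₁ v) * c₁ * f₂ w) = κ * τ (star (g₁ v) * c₂ * g₂ w)) (v w : Ex Q R) :
    τ (star (fx f₁ v) * c₁ * fx f₂ w) = κ * τ (star (fx g₁ v) * c₂ * fx g₂ w) := by
  rw [sesq, sesq, ← List.sum_map_mul_left]
  congr 1
  apply List.map_congr_left
  intro p _
  rw [← List.sum_map_mul_left]
  congr 1
  apply List.map_congr_left
  intro q _
  rw [h]
  ring

/-- the graph of the annihilation operator -/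
def GR (τ : A →ₗ[ℂ] ℂ) (θ : Lt Q R → A) (x y : A) : Prop :=
  ∃ e : Ex Q R, evx θ e = x ∧ fx (Ls τ θ) e = y

variable {τ : A →ₗ[ℂ] ℂ} {θ : Lt Q R → A}

theorem GR.zero : GR τ θ 0 0 := ⟨[], rfl, rfl⟩

theorem GR.add {x y x' y' : A} (h : GR τ θ x y) (h' : GR τ θ x' y') :
    GR τ θ (x + x') (y + y') := by
  obtain ⟨e, rfl, rfl⟩ := h
  obtain ⟨e', rfl, rfl⟩ := h'
  exact ⟨e ++ e', evx_append _ _ _, fx_append _ _ _⟩

theorem GR.smul {x y : A} (c : ℂ) (h : GR τ θ x y) : GR τ θ (c • x) (c • y) := by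
  obtain ⟨e, rfl, rfl⟩ := h
  exact ⟨smx c e, evx_smx _ _ _, fx_smx _ _ _⟩

theorem evx_mul (e e' : Ex Q R) : ∃ e'' : Ex Q R, evx θ e'' = evx θ e * evx θ e' := by
  have h1 : ∀ (w : List (Lt Q R)) (e' : Ex Q R),
      evx θ (e'.map (fun q => (q.1, w ++ q.2))) = ev θ w * evx θ e' := by
    intro w e'
    induction e' with
    | nil => simp
    | cons p e ih =>
      rw [List.map_cons, evx_cons, evx_cons, ih, ev_append, mul_add, mul_smul_comm]
  induction e with
  | nil => exact ⟨[], by simp⟩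
  | cons p e ih =>
    obtain ⟨e2, h2⟩ := ih
    refine ⟨smx p.1 (e'.map (fun q => (q.1, p.2 ++ q.2))) ++ e2, ?_⟩
    rw [evx_append, evx_smx, h1, h2, evx_cons, add_mul, smul_mul_assoc]

theorem evx_star (hθ : ∀ w : List (Lt Q R), ∃ w', star (ev θ w) = ev θ w') (e : Ex Q R) :
    ∃ e' : Ex Q R, evx θ e' = star (evx θ e) := by
  induction e with
  | nil => exact ⟨[], by simp⟩
  | cons p e ih =>
    obtain ⟨e2, h2⟩ := ih
    obtain ⟨w', hw'⟩ := hθ p.2
    refine ⟨(conj p.1, w') :: e2, ?_⟩
    rw [evx_cons, evx_cons, h2, star_add, star_smul, hw']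
    rfl

end basic

/-- swap of a free pair -/
theorem free_swap {A : Type} [CStarAlgebra A] {τ : A →ₗ[ℂ] ℂ} {S T : StarSubalgebra ℂ A}
    (h : FreeFam τ (fun b : Bool => if b then S else T)) :
    FreeFam τ (fun b : Bool => if b then T else S) := by
  intro w hw hz hc
  have h1 := h (w.map fun z => (!z.1, z.2)) (by simpa using hw) (by
    intro z hz'
    rw [List.mem_map] at hz'
    obtain ⟨y, hy, rfl⟩ := hz'
    obtain ⟨h2, h3⟩ := hz y hy
    refine ⟨?_, h3⟩
    rcases y with ⟨b, y⟩
    cases b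
    · exact h2
    · exact h2) (by
    rw [List.isChain_map]
    refine hc.imp ?_
    intro a b hab h
    exact hab (by simpa using h))
  rw [List.map_map] at h1
  exact h1

section sys

variable {B : Type} [CStarAlgebra B] {τ : B →ₗ[ℂ] ℂ}

/-- the system -/
theorem sys_of (hτ : FTS τ) (S : StarSubalgebra ℂ B) (s : B) (hs : star s = s)
    (hU : ∀ m : ℕ, m ≠ 0 → τ (Uc s m) = 0)
    (hf : FreeFam τ (fun b : Bool => if b then S else StarAlgebra.adjoin ℂ {s})) :
    Sys τ S.subtype (StarAlgHom.ofId ℂ B) s where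
  ssa := hs
  free := by
    intro w hw halt hz
    -- a letter of `R` is zero
    by_cases hR : ∃ c : ℂ, Lt.r c ∈ w
    · obtain ⟨c, hc⟩ := hR
      have h1 := hz _ hc
      have h2 : vl (S.subtype : S → B) (StarAlgHom.ofId ℂ B) s (Lt.r c) = c • (1 : B) := by
        rw [vl_r, StarAlgHom.ofId_apply, Algebra.algebraMap_eq_smul_one]
      rw [h2, map_smul, hτ.one, smul_eq_mul, mul_one] at h1
      subst h1
      rw [zero_smul] at h2
      have h3 : ev (vl (S.subtype : S → B) (StarAlgHom.ofId ℂ B) s) w = 0 := by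
        unfold ev
        refine List.prod_eq_zero ?_
        rw [List.mem_map]
        exact ⟨_, hc, h2⟩
      rw [h3, map_zero]
    · push Not at hR
      rcases w with _ | ⟨a, w⟩
      · exact absurd rfl hw
      · rcases w with _ | ⟨b, w⟩
        · have := hz a (by simp)
          simpa using this
        · exfalso
          have hch := halt.2
          rw [List.isChain_cons_cons] at hch
          have ha : a.isQ = true := by
            rcases a with x | x | _
            · rfl
            · exact absurd (by simp) (hR x)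
            · have := halt.1 _ (List.mem_cons_self)
              simp [Lt.isS] at this
          have hb : b.isQ = true := by
            rcases b with x | x | _
            · rfl
            · exact absurd (by simp) (hR x)
            · have := halt.1 Lt.s (by simp)
              simp [Lt.isS] at this
          exact hch.1 (by rw [ha, hb])
  sd := by
    refine T_SDF.t_SDF B S ℂ τ S.subtype (StarAlgHom.ofId ℂ B) s (StarAlgebra.adjoin ℂ {s}) S hτ
      (StarAlgebra.subset_adjoin ℂ _ rfl) hs (fun x => x.2) (fun x => ?_) hU (free_swap hf)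
    rw [StarAlgHom.ofId_apply]
    exact S.algebraMap_mem x

/-- the positive functional of a faithful tracial state -/
def posf (D : Type) [CStarAlgebra D] [PartialOrder D] [StarOrderedRing D] (t : D →ₗ[ℂ] ℂ)
    (h : FTS t) : D →ₚ[ℂ] ℂ :=
  PositiveLinearMap.mk₀ t (by
    intro x hx
    obtain ⟨y, rfl⟩ := CStarAlgebra.nonneg_iff_eq_star_mul_self.mp hx
    have h1 : conj (t (star y * y)) = t (star y * y) := by
      rw [← h.str]
      congr 1
      rw [star_mul, star_star]
    have h2 := Complex.conj_eq_iff_im.mp h1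
    rw [Complex.nonneg_iff]
    exact ⟨h.nonneg y, h2.symm⟩)

theorem fock_abs (hτ : FTS τ) (S : StarSubalgebra ℂ B) (s : B) (hs : star s = s)
    (hU : ∀ m : ℕ, m ≠ 0 → τ (Uc s m) = 0)
    (hf : FreeFam τ (fun b : Bool => if b then S else StarAlgebra.adjoin ℂ {s}))
    (hgen : (StarAlgebra.adjoin ℂ ((S : Set B) ∪ {s})).topologicalClosure = ⊤)
    (H : Type) [NormedAddCommGroup H] [InnerProductSpace ℂ H] [CompleteSpace H]
    (lam : B →⋆ₐ[ℂ] (H →L[ℂ] H)) (ι : B →ₗ[ℂ] H)
    (hin : ∀ x y, inner ℂ (ι x) (ι y) = τ (star x * y)) (hιdense : DenseRange ι)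
    (hlamι : ∀ x y : B, lam x (ι y) = ι (x * y)) :
    ∃ (l : H →L[ℂ] H) (Ω : H),
    (∀ x, ‖lam x‖ = ‖x‖) ∧ (∀ x, inner ℂ Ω (lam x Ω) = τ x) ∧ lam s = l + star l ∧
    (∀ x ∈ S, star l * lam x * l = τ x • (1 : H →L[ℂ] H)) ∧
    ∀ x ∈ S, (star l) (lam x Ω) = 0 := by
  -- the system
  have hsys := sys_of hτ S s hs hU hf
  have n1 := T_N1.t_N1 B S ℂ τ S.subtype (StarAlgHom.ofId ℂ B) s hτ hsys
  have n2' := T_N2.t_N2 B S ℂ τ S.subtype (StarAlgHom.ofId ℂ B) s hτ hsys n1
  set θ : Lt S ℂ → B := vl S.subtype (StarAlgHom.ofId ℂ B) s with hθ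
  have hstar : ∀ w : List (Lt S ℂ), star (ev θ w) = ev θ (stw w) := fun w =>
    star_ev (vl_stl S.subtype (StarAlgHom.ofId ℂ B) hs) w
  have ha : ∀ x y x' y' : B, GR τ θ x y → GR τ θ x' y' →
      τ (star x * y') = τ (star (s * x - y) * x') := by
    rintro x y x' y' ⟨v, rfl, rfl⟩ ⟨w, rfl, rfl⟩
    have h := sesq_congr τ (ev θ) (Ls τ θ) (fun v => s * ev θ v - Ls τ θ v) (ev θ) 1 1 1
      (fun v w => by rw [mul_one, mul_one, one_mul]; exact n1 v w) v w
    rw [fx_sub, mul_one, mul_one, one_mul] at h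
    exact h
  have hb : ∀ c : List (Lt S ℂ), (∀ z ∈ c, z.isS = false) → ∀ x y x' y' : B, GR τ θ x y →
      GR τ θ x' y' → τ (star (s * x - y) * ev θ c * (s * x' - y')) =
        τ (ev θ c) * τ (star x * x') := by
    rintro c hc x y x' y' ⟨v, rfl, rfl⟩ ⟨w, rfl, rfl⟩
    have h := sesq_congr τ (fun v => s * ev θ v - Ls τ θ v) (fun v => s * ev θ v - Ls τ θ v)
      (ev θ) (ev θ) (ev θ c) 1 (τ (ev θ c))
      (fun v w => by rw [mul_one]; exact n2' c v w hc) v w
    rw [fx_sub, fx_sub, mul_one] at h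
    exact h
  have hb1 : ∀ x y x' y' : B, GR τ θ x y → GR τ θ x' y' →
      τ (star (s * x - y) * (s * x' - y')) = τ (star x * x') := by
    intro x y x' y' h h'
    have := hb [] (by simp) x y x' y' h h'
    rwa [ev_nil, mul_one, hτ.one, one_mul] at this
  -- uniqueness of the annihilation
  have huniq0 : ∀ y, GR τ θ 0 y → y = 0 := by
    intro y h
    have h1 := hb1 0 y 0 y h h
    simp only [mul_zero, zero_sub, star_neg, neg_mul_neg, star_zero, map_zero] at h1
    exact hτ.faith y (by rw [h1]; simp)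
  have huniq : ∀ x y y', GR τ θ x y → GR τ θ x y' → y = y' := by
    intro x y y' h h'
    have h1 := h.add (h'.smul (-1))
    rw [neg_one_smul, neg_one_smul, add_neg_cancel] at h1
    have := huniq0 _ h1
    rwa [← sub_eq_add_neg, sub_eq_zero] at this
  -- the domain
  let P : Submodule ℂ B :=
    { carrier := {x | ∃ y, GR τ θ x y}
      add_mem' := by
        rintro x x' ⟨y, h⟩ ⟨y', h'⟩
        exact ⟨_, h.add h'⟩
      zero_mem' := ⟨0, GR.zero⟩
      smul_mem' := by
        rintro c x ⟨y, h⟩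
        exact ⟨_, h.smul c⟩ }
  have hPch : ∀ x : P, ∃ y, GR τ θ (x : B) y := fun x => x.2
  choose L hL using hPch
  let Lm : P →ₗ[ℂ] B :=
    { toFun := L
      map_add' := fun x y => huniq _ _ _ (hL (x + y)) ((hL x).add (hL y))
      map_smul' := fun c x => huniq _ _ _ (hL (c • x)) ((hL x).smul c) }
  -- density of the domain
  have hmemev : ∀ e : Ex S ℂ, evx θ e ∈ P := fun e => ⟨_, e, rfl, rfl⟩
  let D : StarSubalgebra ℂ B :=
    { carrier := {x | ∃ e : Ex S ℂ, evx θ e = x}
      mul_mem' := by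
        rintro _ _ ⟨e, rfl⟩ ⟨e', rfl⟩
        exact evx_mul e e'
      add_mem' := by
        rintro _ _ ⟨e, rfl⟩ ⟨e', rfl⟩
        exact ⟨e ++ e', evx_append _ _ _⟩
      algebraMap_mem' := by
        intro c
        refine ⟨[(c, [])], ?_⟩
        rw [evx_cons, evx_nil, ev_nil, add_zero, Algebra.algebraMap_eq_smul_one]
      star_mem' := by
        rintro _ ⟨e, rfl⟩
        exact evx_star (fun w => ⟨_, hstar w⟩) e }
  have hDP : ∀ x ∈ D, x ∈ P := by
    rintro _ ⟨e, rfl⟩
    exact hmemev e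
  have hDdense : Dense (D : Set B) := by
    have h1 : StarAlgebra.adjoin ℂ ((S : Set B) ∪ {s}) ≤ D := by
      rw [StarAlgebra.adjoin_le_iff]
      intro x hx
      rcases hx with hx | hx
      · refine ⟨[(1, [Lt.q ⟨x, hx⟩])], ?_⟩
        rw [evx_cons, evx_nil, ev_cons, ev_nil, add_zero, one_smul, mul_one]
        rfl
      · rw [Set.mem_singleton_iff] at hx
        refine ⟨[(1, [Lt.s])], ?_⟩
        rw [evx_cons, evx_nil, ev_cons, ev_nil, add_zero, one_smul, mul_one, hx]
        rfl
    intro x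
    have h2 : x ∈ (StarAlgebra.adjoin ℂ ((S : Set B) ∪ {s})).topologicalClosure := by
      rw [hgen]; trivial
    have h3 : x ∈ closure ((StarAlgebra.adjoin ℂ ((S : Set B) ∪ {s}) : StarSubalgebra ℂ B) : Set B) :=
      h2
    exact closure_mono (fun y hy => h1 hy) h3
  have hnsq : ∀ x, ‖ι x‖ ^ 2 = (τ (star x * x)).re := by
    intro x
    have h1 := hin x x
    rw [inner_self_eq_norm_sq_to_K] at h1
    rw [← h1]
    norm_cast
  have hιle : ∀ x, ‖ι x‖ ≤ ‖x‖ := by
    intro x
    have h1 : ‖ι x‖ ^ 2 ≤ ‖x‖ ^ 2 := by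
      rw [hnsq]
      calc (τ (star x * x)).re ≤ ‖τ (star x * x)‖ := Complex.re_le_norm _
        _ ≤ ‖star x * x‖ := hτ.bound _
        _ = ‖x‖ ^ 2 := by rw [CStarRing.norm_star_mul_self, sq]
    exact (pow_le_pow_iff_left₀ (norm_nonneg _) (norm_nonneg _) two_ne_zero).1 h1
  have hιc : Continuous ι := by
    refine AddMonoidHomClass.continuous_of_bound ι 1 fun x => ?_
    rw [one_mul]
    exact hιle x
  let ιP : P →ₗ[ℂ] H := ι.comp P.subtype
  have hιPdense : DenseRange ιP := by
    have h1 : Dense (ι '' (D : Set B)) := hιdense.dense_image hιc hDdense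
    intro y
    refine closure_mono ?_ (h1 y)
    rintro _ ⟨x, hx, rfl⟩
    exact ⟨⟨x, hDP x hx⟩, rfl⟩
  -- the creation operator
  let l0 : P →ₗ[ℂ] H := ι.comp ((LinearMap.mulLeft ℂ s).comp P.subtype - Lm)
  have hl0 : ∀ x : P, l0 x = ι (s * (x : B) - L x) := fun x => rfl
  have hl0n : ∀ x : P, ‖l0 x‖ = ‖ιP x‖ := by
    intro x
    have h1 : ‖l0 x‖ ^ 2 = ‖ιP x‖ ^ 2 := by
      rw [hl0]
      change _ = ‖ι (x : B)‖ ^ 2
      rw [hnsq, hnsq, hb1 _ _ _ _ (hL x) (hL x)]
    exact (pow_left_inj₀ (norm_nonneg _) (norm_nonneg _) two_ne_zero).1 h1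
  let l : H →L[ℂ] H := l0.extendOfNorm ιP
  have hl : ∀ x : P, l (ι (x : B)) = ι (s * (x : B) - L x) := by
    intro x
    have := LinearMap.extendOfNorm_eq (f := l0) (e := ιP) hιPdense
      ⟨1, fun x => by rw [one_mul, hl0n]⟩ x
    exact this
  have hext : ∀ {u v : H}, (∀ x : P, inner ℂ (ι (x : B)) u = inner ℂ (ι (x : B)) v) →
      u = v := by
    intro u v h
    refine ext_inner_left ℂ fun w => ?_
    have h1 : Set.EqOn (fun w : H => inner ℂ w u) (fun w => inner ℂ w v) (Set.range ιP) := by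
      rintro _ ⟨x, rfl⟩
      exact h x
    have h2 := Continuous.ext_on hιPdense (by fun_prop) (by fun_prop) h1
    exact congrFun h2 w
  have hladj : ∀ x : P, (star l) (ι (x : B)) = ι (L x) := by
    intro x'
    refine hext fun x => ?_
    rw [ContinuousLinearMap.star_eq_adjoint, ContinuousLinearMap.adjoint_inner_right, hl, hin, hin]
    exact (ha _ _ _ _ (hL x) (hL x')).symm
  let Ω : H := ι 1
  have hlamΩ : ∀ x : B, lam x Ω = ι x := by
    intro x
    rw [hlamι, mul_one]
  have hinj : Function.Injective lam := by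
    intro x y hxy
    have h1 : ι (x - y) = 0 := by
      rw [map_sub, ← hlamΩ, ← hlamΩ, hxy, sub_self]
    have h2 := hnsq (x - y)
    rw [h1, norm_zero] at h2
    have := hτ.faith (x - y) (by rw [← h2]; norm_num)
    exact sub_eq_zero.1 this
  have hSP : ∀ x ∈ S, GR τ θ x 0 := by
    intro x hx
    refine ⟨[(1, [Lt.q ⟨x, hx⟩])], ?_, ?_⟩
    · rw [evx_cons, evx_nil, ev_cons, ev_nil, add_zero, one_smul, mul_one]
      rfl
    · rw [fx_cons, fx_nil, add_zero, one_smul]
      unfold Ls
      refine ssum_noS _ _ _ ?_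
      intro z hz
      rw [List.mem_singleton] at hz
      rw [hz]
      rfl
  refine ⟨l, Ω, fun x => NonUnitalStarAlgHom.norm_map lam hinj x, ?_, ?_, ?_, ?_⟩
  · intro x
    rw [hlamΩ, hin, star_one, one_mul]
  · -- `lam s = l + star l`
    refine ContinuousLinearMap.ext fun w => ?_
    have h1 : Set.EqOn (fun w : H => lam s w) (fun w => (l + star l) w)
        (Set.range ιP) := by
      rintro _ ⟨x, rfl⟩
      change lam s (ι (x : B)) = l (ι (x : B)) + (star l) (ι (x : B))
      rw [hlamι, hl, hladj, ← map_add, sub_add_cancel]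
    exact congrFun (Continuous.ext_on hιPdense (lam s).continuous (l + star l).continuous h1) w
  · intro x hx
    refine ContinuousLinearMap.ext fun w => ?_
    have h1 : Set.EqOn (fun w : H => (star l * lam x * l) w)
        (fun w => (τ x • (1 : H →L[ℂ] H)) w) (Set.range ιP) := by
      rintro _ ⟨z', rfl⟩
      refine hext fun z => ?_
      change inner ℂ (ι (z : B)) ((star l) (lam x (l (ι (z' : B))))) =
        inner ℂ (ι (z : B)) (τ x • ι (z' : B))
      rw [ContinuousLinearMap.star_eq_adjoint, ContinuousLinearMap.adjoint_inner_right, hl, hl,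
        hlamι, hin, inner_smul_right, hin]
      have h2 := hb [Lt.q ⟨x, hx⟩] (by
        intro z hz
        rw [List.mem_singleton] at hz
        rw [hz]
        rfl) _ _ _ _ (hL z) (hL z')
      rw [ev_cons, ev_nil, mul_one] at h2
      rw [← mul_assoc]
      exact h2
    exact congrFun (Continuous.ext_on hιPdense (star l * lam x * l).continuous
      (τ x • (1 : H →L[ℂ] H)).continuous h1) w
  · intro x hx
    rw [hlamΩ]
    have h1 := hladj ⟨x, 0, hSP x hx⟩
    rw [huniq _ _ _ (hL ⟨x, 0, hSP x hx⟩) (hSP x hx), map_zero] at h1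
    exact h1

theorem t_FOCK : S_FOCK := by
  intro B _ τ hτ S s hs hU hf hgen
  let _ : PartialOrder B := CStarAlgebra.spectralOrder B
  have _ : StarOrderedRing B := CStarAlgebra.spectralOrderedRing B
  let f : B →ₚ[ℂ] ℂ := posf B τ hτ
  let ι : B →ₗ[ℂ] f.GNS :=
    { toFun := fun x => ((f.toPreGNS x : f.PreGNS) : f.GNS)
      map_add' := fun x y => by
        rw [map_add, UniformSpace.Completion.coe_add]
      map_smul' := fun c x => by
        rw [map_smul, UniformSpace.Completion.coe_smul]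
        rfl }
  have a1 : ∀ x y, inner ℂ (ι x) (ι y) = τ (star x * y) := by
    intro x y
    show inner ℂ ((f.toPreGNS x : f.PreGNS) : f.GNS) ((f.toPreGNS y : f.PreGNS) : f.GNS) = _
    rw [UniformSpace.Completion.inner_coe, PositiveLinearMap.preGNS_inner_def]
    rfl
  have a2 : DenseRange ι := by
    have h1 : DenseRange (fun x : f.PreGNS => (x : f.GNS)) :=
      UniformSpace.Completion.denseRange_coe
    intro y
    have := h1 y
    refine closure_mono ?_ this
    rintro _ ⟨x, rfl⟩
    exact ⟨f.ofPreGNS x, rfl⟩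
  have a3 : ∀ x y : B, f.gnsStarAlgHom x (ι y) = ι (x * y) := by
    intro x y
    show f.gnsNonUnitalStarAlgHom x ((f.toPreGNS y : f.PreGNS) : f.GNS) = _
    rw [PositiveLinearMap.gnsNonUnitalStarAlgHom_apply_coe,
      PositiveLinearMap.leftMulMapPreGNS_apply]
    rfl
  obtain ⟨l, Ω, h⟩ := fock_abs hτ S s hs hU hf hgen f.GNS f.gnsStarAlgHom ι a1 a2 a3
  exact ⟨f.GNS, inferInstance, inferInstance, inferInstance, f.gnsStarAlgHom, l, Ω, h⟩

end sys

end Pool.Agent.N833.UN
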